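import Pool.Agent.Lib.MP_0813d6_co.Path

/-!
Counterexamples to Q1 for every large `r` and every `m ≥ 2`, with hypergraphs written as finite
families of finite sets of vertices.
-/

set_option autoImplicit false

namespace Pool.Agent.Results.MP_0813d6_co.AllLargeRank

open Finset Pool.Agent.Lib.MP_0813d6_co

/-- The cover number of a hypergraph `H` (a finite family of finite sets of natural numbers): the
least size of a set of vertices meeting every edge of `H`. -/
noncomputable def coverNumber (H : Finset (Finset ℕ)) : ℕ :=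
  sInf {t : ℕ | ∃ C : Finset ℕ, C.card = t ∧ ∀ e ∈ H, (e ∩ C).Nonempty}

/-- The vertex set of the edge with label `e k` on the side `k`. -/
def edge {r : ℕ} (e : Fin r → ℕ) : Finset ℕ := univ.image fun k : Fin r => Nat.pair k (e k)

theorem mem_edge {r : ℕ} {e : Fin r → ℕ} {v : ℕ} :
    v ∈ edge e ↔ ∃ k : Fin r, Nat.pair k (e k) = v := by
  simp [edge]

theorem card_edge {r : ℕ} (e : Fin r → ℕ) : (edge e).card = r := by
  rw [edge, card_image_of_injective, card_univ, Fintype.card_fin]
  intro k k' h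
  exact Fin.ext (Nat.pair_eq_pair.1 h).1

theorem coverNumber_spec (H : Finset (Finset ℕ)) (hH : ∀ e ∈ H, e.Nonempty) :
    ∃ C : Finset ℕ, C.card = coverNumber H ∧ ∀ e ∈ H, (e ∩ C).Nonempty := by
  refine Nat.sInf_mem (s := {t : ℕ | ∃ C : Finset ℕ, C.card = t ∧ ∀ e ∈ H, (e ∩ C).Nonempty})
    ⟨_, H.biUnion id, rfl, fun e he => ?_⟩
  obtain ⟨v, hv⟩ := hH e he
  exact ⟨v, mem_inter.2 ⟨hv, mem_biUnion.2 ⟨e, he, hv⟩⟩⟩

/-- For every large `r` and every `m ≥ 2` there are `m` non-empty `r`-partite hypergraphs on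
common sides `V j` such that the cover number of the union over every index set `I` is at least
`(2r-1)(|I|-1)` and exceeds `(2r-2)(|I|-1)` (in the integers, the empty `I` included), the cover
number of the union of all of them being exactly `(2r-1)(m-1)`, and there is no full rainbow
matching. -/
theorem result :
    ∃ r₀ : ℕ, 2 ≤ r₀ ∧ ∀ r : ℕ, r₀ ≤ r → ∀ m : ℕ, 2 ≤ m →
      ∃ (V : Fin r → Finset ℕ) (H : Fin m → Finset (Finset ℕ)),
        (∀ j k, j ≠ k → Disjoint (V j) (V k)) ∧
        (∀ i, (H i).Nonempty) ∧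
        (∀ i, ∀ e ∈ H i, e ⊆ univ.biUnion V ∧ e.card = r ∧ ∀ j, (e ∩ V j).card = 1) ∧
        (∀ I : Finset (Fin m),
          (2 * (r : ℤ) - 2) * ((I.card : ℤ) - 1) < (coverNumber (I.biUnion H) : ℤ) ∧
          (2 * (r : ℤ) - 1) * ((I.card : ℤ) - 1) ≤ (coverNumber (I.biUnion H) : ℤ)) ∧
        (coverNumber (univ.biUnion H) : ℤ) = (2 * (r : ℤ) - 1) * ((m : ℤ) - 1) ∧
        ¬ ∃ f : Fin m → Finset ℕ, (∀ i, f i ∈ H i) ∧ ∀ i j, i ≠ j → Disjoint (f i) (f j) := by
  obtain ⟨r0, hr0⟩ := good_all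
  refine ⟨r0 + 2, by omega, fun r hr m hm => ?_⟩
  obtain ⟨A, B, hG⟩ := hr0 r (by omega)
  obtain ⟨n, rfl⟩ : ∃ n, m = n + 1 := ⟨m - 1, by omega⟩
  have hn : 0 < n := by omega
  have hr' : (2 : ℤ) ≤ r := by exact_mod_cast (by omega : 2 ≤ r)
  set F : Fin (n + 1) → Finset (Fin r → ℕ) := fun i => pathFam A B n i with hF
  have hedge : ∀ e : Fin r → ℕ, (edge e).Nonempty := fun e =>
    card_pos.1 (by rw [card_edge]; omega)
  let g : Fin r × ℕ → ℕ := fun p => Nat.pair p.1 p.2
  have hg : Function.Injective g := by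
    rintro ⟨a, b⟩ ⟨a', b'⟩ h
    obtain ⟨h1, h2⟩ := Nat.pair_eq_pair.1 h
    exact Prod.ext (Fin.ext h1) h2
  have hlow : ∀ I : Finset (Fin (n + 1)), I.Nonempty →
      1 ≤ coverNumber (I.biUnion fun i => (F i).image edge) ∧
      2 * r * (I.card - 1) ≤ coverNumber (I.biUnion fun i => (F i).image edge) + (I.card - 1) := by
    intro I hI
    obtain ⟨C, hC, hC'⟩ := coverNumber_spec (I.biUnion fun i => (F i).image edge) (by
      intro s hs
      obtain ⟨i, -, hs'⟩ := mem_biUnion.1 hs
      obtain ⟨e, -, rfl⟩ := mem_image.1 hs'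
      exact hedge e)
    have key : ∀ e : Fin r → ℕ, (edge e ∩ C).Nonempty →
        ∃ k, (k, e k) ∈ C.preimage g hg.injOn := by
      rintro e ⟨v, hv⟩
      obtain ⟨h1, h2⟩ := mem_inter.1 hv
      obtain ⟨k, rfl⟩ := mem_edge.1 h1
      exact ⟨k, mem_preimage.2 h2⟩
    have h4 := path_lower hG (n := n) (J := I.map Fin.valEmbedding) (by
      intro i hi
      obtain ⟨i', -, rfl⟩ := mem_map.1 hi
      exact Nat.le_of_lt_succ i'.2) (by simpa using hI) (C.preimage g hg.injOn) (by
      intro i hi e he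
      obtain ⟨i', hi', rfl⟩ := mem_map.1 hi
      exact key e (hC' _ (mem_biUnion.2 ⟨i', hi', mem_image_of_mem _ he⟩)))
    have h5 : (C.preimage g hg.injOn).card ≤ C.card :=
      card_le_card_of_injOn g (fun p hp => mem_preimage.1 hp) hg.injOn
    rw [card_map] at h4
    obtain ⟨i, hi⟩ := hI
    obtain ⟨e, he⟩ := path_nonempty hG hn i
    have h6 : 0 < C.card := card_pos.2
      ((hC' _ (mem_biUnion.2 ⟨i, hi, mem_image_of_mem edge he⟩)).mono inter_subset_right)
    omega
  have hint : ∀ I : Finset (Fin (n + 1)),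
      (2 * (r : ℤ) - 2) * ((I.card : ℤ) - 1) <
        (coverNumber (I.biUnion fun i => (F i).image edge) : ℤ) ∧
      (2 * (r : ℤ) - 1) * ((I.card : ℤ) - 1) ≤
        (coverNumber (I.biUnion fun i => (F i).image edge) : ℤ) := by
    intro I
    rcases I.eq_empty_or_nonempty with rfl | hI
    · have := Int.natCast_nonneg
        (coverNumber ((∅ : Finset (Fin (n + 1))).biUnion fun i => (F i).image edge))
      rw [card_empty]
      push_cast
      constructor <;> linarith
    · obtain ⟨h1, h2⟩ := hlow I hI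
      obtain ⟨s, hs⟩ : ∃ s, I.card = s + 1 := ⟨I.card - 1, by have := card_pos.2 hI; omega⟩
      rw [hs] at h2 ⊢
      rw [Nat.add_sub_cancel] at h2
      generalize coverNumber (I.biUnion fun i => (F i).image edge) = t at h1 h2
      have h3 : 2 * (r : ℤ) * s ≤ t + s := by exact_mod_cast h2
      have h4 : (1 : ℤ) ≤ t := by exact_mod_cast h1
      push_cast
      refine ⟨?_, by linarith⟩
      rcases Nat.eq_zero_or_pos s with rfl | hs0
      · push_cast
        linarith
      · have h5 : (1 : ℤ) ≤ s := by exact_mod_cast hs0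
        linarith
  refine ⟨fun j => (univ.biUnion F).image fun e => Nat.pair j (e j),
    fun i => (F i).image edge, ?_, fun i => (path_nonempty hG hn i).image _, ?_, hint, ?_, ?_⟩
  · intro j k hjk
    rw [Finset.disjoint_left]
    intro v h1 h2
    obtain ⟨e, -, rfl⟩ := mem_image.1 h1
    obtain ⟨e', -, h⟩ := mem_image.1 h2
    exact hjk (Fin.ext (Nat.pair_eq_pair.1 h).1.symm)
  · intro i s hs
    obtain ⟨e, he0, rfl⟩ := mem_image.1 hs
    have he : e ∈ univ.biUnion F := mem_biUnion.2 ⟨i, mem_univ _, he0⟩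
    refine ⟨fun v hv => ?_, card_edge e, fun j => ?_⟩
    · obtain ⟨k, rfl⟩ := mem_edge.1 hv
      exact mem_biUnion.2 ⟨k, mem_univ _, mem_image.2 ⟨e, he, rfl⟩⟩
    · rw [card_eq_one]
      refine ⟨Nat.pair j (e j), ?_⟩
      ext v
      rw [mem_inter, mem_singleton]
      constructor
      · rintro ⟨h1, h2⟩
        obtain ⟨k, rfl⟩ := mem_edge.1 h1
        obtain ⟨e', -, h⟩ := mem_image.1 h2
        have hk : j = k := Fin.ext (Nat.pair_eq_pair.1 h).1
        rw [hk]
      · rintro rfl
        exact ⟨mem_edge.2 ⟨j, rfl⟩, mem_image.2 ⟨e, he, rfl⟩⟩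
  · apply le_antisymm
    · obtain ⟨C, h1, h2⟩ := path_upper hG n
      have h3 : coverNumber (univ.biUnion fun i => (F i).image edge) ≤ (C.image g).card := by
        refine Nat.sInf_le ⟨_, rfl, fun s hs => ?_⟩
        obtain ⟨i, -, hs'⟩ := mem_biUnion.1 hs
        obtain ⟨e, he, rfl⟩ := mem_image.1 hs'
        obtain ⟨k, hk⟩ := h1 i (Nat.le_of_lt_succ i.2) e he
        exact ⟨g (k, e k), mem_inter.2 ⟨mem_edge.2 ⟨k, rfl⟩, mem_image_of_mem g hk⟩⟩
      have h4 : (C.image g).card ≤ C.card := card_image_le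
      have h5 : coverNumber (univ.biUnion fun i => (F i).image edge) + n ≤ 2 * r * n := by omega
      have h6 : (coverNumber (univ.biUnion fun i => (F i).image edge) : ℤ) + n ≤ 2 * r * n := by
        exact_mod_cast h5
      push_cast
      linarith
    · have := (hint univ).2
      rwa [card_univ, Fintype.card_fin] at this
  · rintro ⟨f, hf, hdis⟩
    have h1 : ∀ i, ∃ e ∈ F i, edge e = f i := fun i => mem_image.1 (hf i)
    choose e he he' using h1
    refine path_no_matching hG e he fun i j hij k hk => ?_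
    have h := hdis i j hij
    rw [← he' i, ← he' j, Finset.disjoint_left] at h
    exact h (mem_edge.2 ⟨k, rfl⟩) (mem_edge.2 ⟨k, by rw [hk]⟩)

end Pool.Agent.Results.MP_0813d6_co.AllLargeRank
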